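import Pool.Agent.H57.CD.Dbl

/-!
# helper57, CD, B3: sums over the vertices of a cube, exactness of the columns
-/

namespace Pool.Agent.H68.TL

open Finset

set_option linter.unusedSectionVars false

variable {V X Γ : Type} [Fintype V] [DecidableEq V] [Group Γ] [MulAction Γ X]

namespace CC

variable (C : CC V X Γ)

section cs

variable {A : Type} [AddCommGroup A]

/-- sum over the vertices of the cube with directions `l` -/
def cs (C : CC V X Γ) : List V → (X → A) → X → A
  | [], f, x => f x
  | v :: l, f, x => cs C l f x + cs C l f (C.tau v x)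

lemma cs_zero (l : List V) (x : X) : C.cs l (fun _ => (0 : A)) x = 0 := by
  induction l generalizing x with
  | nil => rfl
  | cons v l ih => simp [cs, ih]

lemma cs_add (l : List V) (f g : X → A) (x : X) :
    C.cs l (fun y => f y + g y) x = C.cs l f x + C.cs l g x := by
  induction l generalizing x with
  | nil => rfl
  | cons v l ih => simp only [cs, ih]; abel

lemma cs_sum {ι : Type} (I : Finset ι) (l : List V) (f : ι → X → A) (x : X) :
    C.cs l (fun y => ∑ i ∈ I, f i y) x = ∑ i ∈ I, C.cs l (f i) x := by
  classical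
  induction I using Finset.induction_on with
  | empty => simp [cs_zero]
  | insert a s ha ih =>
    rw [sum_insert ha, ← ih, ← cs_add]
    congr 1
    funext y
    rw [sum_insert ha]

lemma cs_smul [DistribMulAction Γ A] (l : List V) (f : X → A) (hf : ∀ (g : Γ) x, f (g • x) = g • f x)
    (g : Γ) (x : X) : C.cs l f (g • x) = g • C.cs l f x := by
  induction l generalizing x with
  | nil => exact hf g x
  | cons v l ih =>
    simp only [cs]
    rw [ih, ← C.smul_tau, ih, smul_add]

lemma cs_perm (f : X → A) {l l' : List V} (h : l.Perm l')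
    (hc : ∀ u ∈ l, ∀ v ∈ l, u ≠ v → C.adj u v) (x : X) : C.cs l f x = C.cs l' f x := by
  induction h generalizing x with
  | nil => rfl
  | cons a _ ih =>
    simp only [cs]
    rw [ih (fun u hu v hv => hc u (List.mem_cons_of_mem _ hu) v (List.mem_cons_of_mem _ hv)),
      ih (fun u hu v hv => hc u (List.mem_cons_of_mem _ hu) v (List.mem_cons_of_mem _ hv))]
  | swap a b l =>
    simp only [cs]
    by_cases hab : a = b
    · subst hab; rfl
    · rw [C.tau_comm a b x (hc a (by simp) b (by simp) hab)]
      abel
  | trans h1 _ ih1 ih2 =>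
    rw [ih1 hc, ih2 (fun u hu v hv => hc u (h1.mem_iff.2 hu) v (h1.mem_iff.2 hv))]

lemma toList_erase_perm {t : Finset V} {u : V} (hu : u ∈ t) :
    t.toList.Perm (u :: (t.erase u).toList) := by
  rw [List.perm_iff_count]
  intro a
  have h1 : ∀ s : Finset V, s.toList.count a = if a ∈ s then 1 else 0 := by
    intro s
    split_ifs with h
    · exact List.count_eq_one_of_mem s.nodup_toList (mem_toList.2 h)
    · exact List.count_eq_zero_of_not_mem (fun h' => h (mem_toList.1 h'))
  rw [List.count_cons, h1, h1]
  by_cases hau : u = a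
  · subst hau
    simp [hu]
  · have : ¬ a = u := fun h => hau h.symm
    simp [hau, this]

lemma cs_erase (f : X → A) {t : Finset V} (ht : C.Clq t) {u : V} (hu : u ∈ t) (x : X) :
    C.cs t.toList f x =
      C.cs (t.erase u).toList f x + C.cs (t.erase u).toList f (C.tau u x) := by
  rw [C.cs_perm f (toList_erase_perm hu) (C.clq_list ht)]
  rfl

lemma cs_tau (f : X → A) {t : Finset V} (ht : C.Clq t) {u : V} (hu : u ∈ t) (x : X) :
    C.cs t.toList f (C.tau u x) = C.cs t.toList f x := by
  rw [C.cs_erase f ht hu, C.cs_erase f ht hu, C.tau_tau, add_comm]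

lemma cs_inv (f : X → A) (v : V) (hf : ∀ x, f (C.tau v x) = f x) (l : List V)
    (hl : ∀ u ∈ l, C.adj u v) (x : X) : C.cs l f (C.tau v x) = C.cs l f x := by
  induction l generalizing x with
  | nil => exact hf x
  | cons a l ih =>
    simp only [cs]
    have h1 := fun x => ih (fun u hu => hl u (List.mem_cons_of_mem _ hu)) x
    rw [h1, C.tau_comm a v x (hl a (by simp)), h1]

lemma cs_indicator (z : X → A) (t : Finset V) (ht : C.Clq t)
    (hz : ∀ v ∈ t, ∀ x, z (C.tau v x) = z x) (l : List V) (hl : l.Nodup) (hlt : ∀ v ∈ l, v ∈ t)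
    (x : X) : C.cs l (fun y => if ∀ v ∈ t, C.crd y v = true then z y else 0) x =
      if ∀ v ∈ t, v ∉ l → C.crd x v = true then z x else 0 := by
  classical
  induction l generalizing x with
  | nil => simp [cs]
  | cons a l ih =>
    rw [List.nodup_cons] at hl
    have hat : a ∈ t := hlt a (by simp)
    simp only [cs]
    rw [ih hl.2 (fun v hv => hlt v (List.mem_cons_of_mem _ hv)),
      ih hl.2 (fun v hv => hlt v (List.mem_cons_of_mem _ hv)), hz a hat]
    by_cases h : ∀ v ∈ t, v ∉ a :: l → C.crd x v = true
    · rw [if_pos h]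
      have h1 : ∀ y : X, (∀ v, v ≠ a → C.crd y v = C.crd x v) →
          ((∀ v ∈ t, v ∉ l → C.crd y v = true) ↔ C.crd y a = true) := by
        intro y hy
        constructor
        · intro h2; exact h2 a hat hl.1
        · intro h2 v hv hvl
          by_cases hva : v = a
          · rw [hva]; exact h2
          · rw [hy v hva]
            exact h v hv (by simp [hva, hvl])
      have h2 := h1 x (fun _ _ => rfl)
      have h3 := h1 (C.tau a x) (fun v hv => C.crd_ne v a x hv)
      rw [C.crd_self] at h3
      cases hx : C.crd x a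
      · rw [hx] at h2 h3
        rw [if_neg (by rw [h2]; simp), if_pos (by rw [h3]; simp), zero_add]
      · rw [hx] at h2 h3
        rw [if_pos (by rw [h2]), if_neg (by rw [h3]; simp), add_zero]
    · rw [if_neg h]
      have h1 : ∀ y : X, (∀ v, v ≠ a → C.crd y v = C.crd x v) →
          ¬ (∀ v ∈ t, v ∉ l → C.crd y v = true) := by
        intro y hy h2
        refine h (fun v hv hvl => ?_)
        have hva : v ≠ a := fun h' => hvl (by simp [h'])
        rw [← hy v hva]
        exact h2 v hv (fun h' => hvl (List.mem_cons_of_mem _ h'))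
      rw [if_neg (h1 x (fun _ _ => rfl)), if_neg (h1 _ (fun v hv => C.crd_ne v a x hv)), add_zero]

end cs

section aug

variable {A : Type} [AddCommGroup A]

open Classical in
/-- augmentation of the columns -/
noncomputable def aug : (X → Finset V → Finset V → A) →+ (X → Finset V → A) where
  toFun b x t := if C.Clq t then C.cs t.toList (fun y => b y ∅ t) x else 0
  map_zero' := by
    funext x t
    simp only [Pi.zero_apply]
    rw [cs_zero]
    simp
  map_add' f g := by
    funext x t
    simp only [Pi.add_apply]
    split_ifs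
    · rw [cs_add]
    · simp

lemma aug_clq {t : Finset V} (ht : C.Clq t) (b : X → Finset V → Finset V → A) (x : X) :
    C.aug b x t = C.cs t.toList (fun y => b y ∅ t) x := if_pos ht

lemma aug_not {t : Finset V} (ht : ¬ C.Clq t) (b : X → Finset V → Finset V → A) (x : X) :
    C.aug b x t = 0 := if_neg ht

variable [DistribMulAction Γ A]

lemma aug_mem {q k m : ℕ} (hm : m + k = q) {b : X → Finset V → Finset V → A}
    (h : b ∈ C.BB A 0 q k) : C.aug b ∈ C.K A m := by
  refine ⟨fun x t h0 => ?_, fun x t v ht hv => ?_, fun g x t => ?_⟩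
  · by_cases ht : C.Clq t
    · refine ⟨ht, ?_⟩
      by_contra hc
      apply h0
      rw [C.aug_clq ht]
      have : (fun y => b y ∅ t) = fun _ : X => (0 : A) := by
        funext y
        exact BB_zero h (fun h' => hc (by omega)) y
      rw [this, cs_zero]
    · exact absurd (C.aug_not ht b x) h0
  · rw [C.aug_clq ht, C.aug_clq ht, C.cs_tau _ ht hv]
  · by_cases ht : C.Clq t
    · rw [C.aug_clq ht, C.aug_clq ht]
      exact C.cs_smul _ _ (fun g x => BB_smul h g x _ _) g x
    · rw [C.aug_not ht, C.aug_not ht, smul_zero]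

lemma aug_dt (b : X → Finset V → Finset V → A) : C.aug (C.dt b) = C.dlt (C.aug b) := by
  funext x t
  by_cases ht : C.Clq t
  · rw [C.aug_clq ht, C.dlt_clq ht]
    have h1 : (fun y => C.dt b y ∅ t) = fun y => ∑ u ∈ t, b y ∅ (t.erase u) := by
      funext y
      rw [C.dt_pos ⟨ht, empty_subset t⟩, sdiff_empty]
    rw [h1, cs_sum]
    refine sum_congr rfl fun u hu => ?_
    have hc : C.Clq (t.erase u) := ht.mono (erase_subset u t)
    rw [C.aug_clq hc, C.aug_clq hc, C.cs_erase _ ht hu]
  · rw [C.aug_not ht, C.dlt_not ht]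

lemma aug_bd (two : ∀ a : A, a + a = 0) {q k : ℕ} {e : X → Finset V → Finset V → A}
    (h : e ∈ C.BB A 1 q k) : C.aug (C.bd e) = 0 := by
  funext x t
  by_cases ht : C.Clq t
  · rw [C.aug_clq ht]
    have h1 : (fun y => C.bd e y ∅ t) = fun y => ∑ v ∈ (∅ : Finset V)ᶜ, e y (insert v ∅) t := by
      funext y
      exact C.bd_apply2 e y ∅ t
    rw [h1, cs_sum]
    refine sum_eq_zero fun v _ => ?_
    by_cases hv : v ∈ t
    · rw [C.cs_erase _ ht hv, C.cs_inv _ v (fun y => ?_) _ (fun u hu => ?_)]
      · exact two _
      · exact BB_tau h (fun a ha b hb hne => by simp at ha hb; exact absurd (ha.trans hb.symm) hne)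
          (by simp) y t
      · rw [mem_toList, mem_erase] at hu
        exact ht u hu.2 v hv hu.1
    · have : (fun y => e y (insert v ∅) t) = fun _ : X => (0 : A) := by
        funext y
        exact BB_zero h (fun h' => hv (h'.1 (by simp))) y
      rw [this, cs_zero]
  · exact C.aug_not ht _ x

lemma aug_surj {m : ℕ} {z : X → Finset V → A} (hz : z ∈ C.K A m) :
    ∃ b ∈ C.BB A 0 m 0, C.aug b = z := by
  classical
  refine ⟨fun x s t => if s = ∅ ∧ ∀ v ∈ t, C.crd x v = true then z x t else 0,
    ⟨⟨fun x s h => ?_, fun x s v hs hv => ?_, fun g x s => ?_⟩, fun x s t h => ?_⟩, ?_⟩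
  · have hs : s = ∅ := by
      by_contra hne
      exact h (funext fun t => if_neg fun h' => hne h'.1)
    subst hs
    exact ⟨fun u hu => by simp at hu, rfl⟩
  · have hs' : s ≠ ∅ := by rintro rfl; simp at hv
    funext t
    simp only
    rw [if_neg fun h => hs' h.1, if_neg fun h => hs' h.1]
  · funext t
    simp only [C.smul_crd, K_smul hz, Pi.smul_apply]
    split_ifs <;> simp
  · simp only at h
    split_ifs at h with h1
    · rw [h1.1]
      exact ⟨empty_subset t, (K_supp hz h).1, (K_supp hz h).2⟩
    · exact absurd rfl h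
  · funext x t
    by_cases ht : C.Clq t
    · rw [C.aug_clq ht]
      have h1 : (fun y => if (∅ : Finset V) = ∅ ∧ ∀ v ∈ t, C.crd y v = true then z y t else 0) =
          fun y => if ∀ v ∈ t, C.crd y v = true then z y t else 0 := by
        funext y
        simp
      rw [h1, C.cs_indicator (fun y => z y t) t ht (fun v hv y => K_tau hz ht hv y) t.toList
        t.nodup_toList (fun v hv => mem_toList.1 hv), if_pos]
      intro v hv hv'
      exact absurd (mem_toList.2 hv) hv'
    · rw [C.aug_not ht, K_zero hz (fun h => ht h.1)]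

end aug

end CC

end Pool.Agent.H68.TL
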