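import Pool.Agent.H68.TL.Coch

/-!
# helper57, CD, B3: the boundary operator on equivariant cochains
-/

namespace Pool.Agent.H68.TL

open Finset

set_option linter.unusedSectionVars false

variable {V X Γ : Type} [Fintype V] [DecidableEq V] [Group Γ] [MulAction Γ X]

namespace CC

variable (C : CC V X Γ)

variable {M : Type} [AddCommGroup M]

/-- boundary: `(bd f) x s = ∑_{v ∉ s} f x (s ∪ v)` -/
def bd (_C : CC V X Γ) : (X → Finset V → M) →+ (X → Finset V → M) where
  toFun f x s := ∑ v ∈ sᶜ, f x (insert v s)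
  map_zero' := by funext x t; simp
  map_add' f g := by
    funext x t
    simp only [Pi.add_apply]
    rw [← sum_add_distrib]

lemma bd_apply (f : X → Finset V → M) (x : X) (s : Finset V) :
    C.bd f x s = ∑ v ∈ sᶜ, f x (insert v s) := rfl

variable [DistribMulAction Γ M]

lemma bd_mem {m : ℕ} {f : X → Finset V → M} (h : f ∈ C.K M (m + 1)) : C.bd f ∈ C.K M m := by
  refine ⟨fun x s h0 => ?_, fun x s u hs hu => ?_, fun g x s => ?_⟩
  · rw [bd_apply] at h0
    obtain ⟨v, hv, hv2⟩ := exists_ne_zero_of_sum_ne_zero h0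
    have h1 := K_supp h hv2
    rw [mem_compl] at hv
    refine ⟨h1.1.mono (subset_insert v s), ?_⟩
    have h2 := h1.2
    rw [card_insert_of_notMem hv] at h2
    omega
  · rw [bd_apply, bd_apply]
    refine sum_congr rfl fun v hv => ?_
    by_cases hc : C.Clq (insert v s)
    · exact K_tau h hc (mem_insert_of_mem hu) x
    · rw [K_zero h (fun h' => hc h'.1), K_zero h (fun h' => hc h'.1)]
  · rw [bd_apply, bd_apply, smul_sum]
    exact sum_congr rfl fun v hv => K_smul h g x _

omit [DistribMulAction Γ M] in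
lemma bd_bd (two : ∀ a : M, a + a = 0) (f : X → Finset V → M) : C.bd (C.bd f) = 0 := by
  funext x s
  simp only [bd_apply, Pi.zero_apply]
  rw [sum_sigma']
  refine sum_involution (fun p _ => ⟨p.2, p.1⟩) ?_ ?_ ?_ ?_
  · rintro ⟨v, u⟩ hp
    simp only
    rw [Finset.insert_comm]
    exact two _
  · rintro ⟨v, u⟩ hp _ heq
    simp only [mem_sigma, mem_compl, mem_insert, not_or] at hp
    have : u = v := congrArg Sigma.fst heq
    exact hp.2.1 this
  · rintro ⟨v, u⟩ hp
    simp only [mem_sigma, mem_compl, mem_insert, not_or] at hp ⊢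
    exact ⟨hp.2.2, fun h => hp.2.1 h.symm, hp.1⟩
  · rintro ⟨v, u⟩ _
    rfl

/-- exactness of the boundary at `m` -/
def ExB (C : CC V X Γ) (M : Type) [AddCommGroup M] [DistribMulAction Γ M] (m : ℕ) : Prop :=
  ∀ f ∈ C.K M m, C.bd f = 0 → ∃ g ∈ C.K M (m + 1), C.bd g = f

end CC

end Pool.Agent.H68.TL
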