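import Pool.Agent.H57.CD.Aug

/-!
# helper57, CD, B3: exactness of the columns
-/

namespace Pool.Agent.H68.TL

open Finset

set_option linter.unusedSectionVars false

variable {V X Γ : Type} [Fintype V] [DecidableEq V] [Group Γ] [MulAction Γ X]

namespace CC

variable (C : CC V X Γ)

variable {A : Type} [AddCommGroup A] [DistribMulAction Γ A]

/-- `f` is supported on the faces of `t` -/
def ST (f : X → Finset V → A) (t : Finset V) : Prop := ∀ x s, f x s ≠ 0 → s ⊆ t

/-- the homotopy in direction `v` -/
noncomputable def hh (v : V) (f : X → Finset V → A) (x : X) (s : Finset V) : A :=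
  if v ∈ s then f (C.st v x) (s.erase v) else 0

/-- the projection in direction `v` -/
noncomputable def pp (v : V) (f : X → Finset V → A) (x : X) (s : Finset V) : A :=
  if v ∈ s then 0 else if C.crd x v then f x s + f (C.tau v x) s else 0

lemma st_inv {B : Type} (f : X → B) (v : V) (hf : ∀ x, f (C.tau v x) = f x) (x : X) :
    f (C.st v x) = f x := by
  unfold st
  split_ifs
  · exact hf x
  · rfl

lemma hh_mem {p : ℕ} {f : X → Finset V → A} (hf : f ∈ C.K A p) {t : Finset V} (ht : C.Clq t)
    (hs : ST f t) {v : V} (hv : v ∈ t) : C.hh v f ∈ C.K A (p + 1) ∧ ST (C.hh v f) t := by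
  have key : ∀ x s, C.hh v f x s ≠ 0 → v ∈ s ∧ s ⊆ t ∧ s.card = p + 1 := by
    intro x s h
    unfold hh at h
    split_ifs at h with h1
    · have h2 := hs _ _ h
      have h3 := (K_supp hf h).2
      rw [card_erase_of_mem h1] at h3
      have : 0 < s.card := card_pos.2 ⟨v, h1⟩
      refine ⟨h1, fun w hw => ?_, by omega⟩
      by_cases hwv : w = v
      · rw [hwv]; exact hv
      · exact h2 (mem_erase.2 ⟨hwv, hw⟩)
    · exact absurd rfl h
  refine ⟨⟨fun x s h => ?_, fun x s u hcs hu => ?_, fun g x s => ?_⟩, fun x s h => (key x s h).2.1⟩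
  · exact ⟨ht.mono (key x s h).2.1, (key x s h).2.2⟩
  · unfold hh
    split_ifs with h1
    · by_cases huv : u = v
      · subst huv
        rw [C.st_tau]
      · rw [C.st_tau_ne (hcs u hu v h1 huv) huv,
          K_tau hf (hcs.mono (erase_subset v s)) (mem_erase.2 ⟨huv, hu⟩)]
    · rfl
  · unfold hh
    split_ifs
    · rw [C.st_smul, K_smul hf]
    · rw [smul_zero]

lemma pp_mem {p : ℕ} {f : X → Finset V → A} (hf : f ∈ C.K A p) {t : Finset V} (ht : C.Clq t)
    (hs : ST f t) {v : V} (hv : v ∈ t) : C.pp v f ∈ C.K A p ∧ ST (C.pp v f) t := by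
  have key : ∀ x s, C.pp v f x s ≠ 0 → s ⊆ t ∧ s.card = p := by
    intro x s h
    unfold pp at h
    split_ifs at h with h1 h2
    · exact absurd rfl h
    · by_cases h3 : f x s = 0
      · rw [h3, zero_add] at h
        exact ⟨hs _ _ h, (K_supp hf h).2⟩
      · exact ⟨hs _ _ h3, (K_supp hf h3).2⟩
    · exact absurd rfl h
  refine ⟨⟨fun x s h => ?_, fun x s u hcs hu => ?_, fun g x s => ?_⟩, fun x s h => (key x s h).1⟩
  · exact ⟨ht.mono (key x s h).1, (key x s h).2⟩
  · by_cases hst : s ⊆ t
    · unfold pp
      by_cases h1 : v ∈ s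
      · rw [if_pos h1, if_pos h1]
      · rw [if_neg h1, if_neg h1]
        have huv : u ≠ v := by rintro rfl; exact h1 hu
        rw [C.crd_ne v u x huv.symm, K_tau hf hcs hu,
          ← C.tau_comm u v x (ht u (hst hu) v hv huv), K_tau hf hcs hu]
    · by_contra hne
      rcases eq_or_ne (C.pp v f x s) 0 with h0 | h0
      · rw [h0] at hne
        exact hst (key _ s hne).1
      · exact hst (key _ s h0).1
  · unfold pp
    rw [C.smul_crd]
    split_ifs
    · rw [smul_zero]
    · rw [← C.smul_tau, K_smul hf, K_smul hf, smul_add]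
    · rw [smul_zero]

lemma homot (two : ∀ a : A, a + a = 0) {p : ℕ} {f : X → Finset V → A} (hf : f ∈ C.K A p)
    {t : Finset V} (ht : C.Clq t) (hs : ST f t) {v : V} (hv : v ∈ t) (hb : C.bd f = 0) :
    f = C.pp v f + C.bd (C.hh v f) := by
  funext x s
  simp only [Pi.add_apply]
  by_cases h1 : v ∈ s
  · have h2 : C.pp v f x s = 0 := by
      unfold pp
      rw [if_pos h1]
    rw [h2, zero_add, bd_apply]
    have h3 : ∀ u ∈ sᶜ, C.hh v f x (insert u s) = f (C.st v x) ((insert u s).erase v) := by
      intro u _
      unfold hh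
      rw [if_pos (mem_insert_of_mem h1)]
    rw [sum_congr rfl h3]
    have h4 : C.bd f (C.st v x) (s.erase v) = 0 := by rw [hb]; rfl
    rw [bd_apply] at h4
    have h5 : (s.erase v)ᶜ = insert v sᶜ := by
      ext w
      simp only [mem_compl, mem_erase, mem_insert]
      tauto
    rw [h5, sum_insert (by simp [h1]), insert_erase h1] at h4
    have h6 : ∀ u ∈ sᶜ, f (C.st v x) (insert u (s.erase v)) =
        f (C.st v x) ((insert u s).erase v) := by
      intro u hu
      rw [mem_compl] at hu
      have huv : u ≠ v := by rintro rfl; exact hu h1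
      rw [erase_insert_of_ne huv]
    rw [sum_congr rfl h6] at h4
    have h7 : f (C.st v x) s = f x s := by
      by_cases hst : C.Clq s
      · exact C.st_inv (fun y => f y s) v (fun y => K_tau hf hst h1 y) x
      · rw [K_zero hf (fun h => hst h.1), K_zero hf (fun h => hst h.1)]
    rw [h7] at h4
    have h8 := two (f x s)
    calc f x s = f x s + (f x s + ∑ u ∈ sᶜ, f (C.st v x) ((insert u s).erase v)) := by
          rw [h4, add_zero]
      _ = _ := by rw [← add_assoc, h8, zero_add]
  · have h2 : C.bd (C.hh v f) x s = f (C.st v x) s := by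
      rw [bd_apply, sum_eq_single v]
      · unfold hh
        rw [if_pos (mem_insert_self v s), erase_insert h1]
      · intro u _ huv
        unfold hh
        rw [if_neg]
        rw [mem_insert]
        rintro (h | h)
        · exact huv h.symm
        · exact h1 h
      · intro h
        exact absurd (mem_compl.2 h1) h
    rw [h2]
    unfold pp st
    rw [if_neg h1]
    cases C.crd x v
    · simp
    · simp only [if_true]
      rw [add_assoc, two, add_zero]

lemma column_aux (two : ∀ a : A, a + a = 0) {p : ℕ} {f : X → Finset V → A} (hf : f ∈ C.K A p)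
    {t : Finset V} (ht : C.Clq t) (hs : ST f t) (hb : C.bd f = 0) (l : List V) (hl : l.Nodup)
    (hlt : ∀ v ∈ l, v ∈ t) :
    ∃ r ∈ C.K A p, ST r t ∧ C.bd r = 0 ∧ (∀ x s, r x s ≠ 0 → ∀ v ∈ l, v ∉ s) ∧
      (∀ x, r x ∅ = if ∀ v ∈ l, C.crd x v = true then C.cs l (fun y => f y ∅) x else 0) ∧
      ∃ e ∈ C.K A (p + 1), ST e t ∧ f = r + C.bd e := by
  classical
  induction l with
  | nil =>
    refine ⟨f, hf, hs, hb, fun x s _ v hv => by simp at hv, fun x => by simp [cs], 0,
      zero_mem _, fun x s h => absurd rfl h, by rw [map_zero, add_zero]⟩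
  | cons v l ih =>
    rw [List.nodup_cons] at hl
    obtain ⟨r, hr, hrt, hrb, hr1, hr2, e, he, het, hfe⟩ :=
      ih hl.2 (fun u hu => hlt u (List.mem_cons_of_mem _ hu))
    have hv : v ∈ t := hlt v (by simp)
    obtain ⟨h1, h2⟩ := C.pp_mem hr ht hrt hv
    obtain ⟨h3, h4⟩ := C.hh_mem hr ht hrt hv
    have h5 := C.homot two hr ht hrt hv hrb
    refine ⟨C.pp v r, h1, h2, ?_, ?_, ?_, C.hh v r + e, add_mem h3 he, ?_, ?_⟩
    · have h6 : C.bd r = C.bd (C.pp v r) + C.bd (C.bd (C.hh v r)) := by
        rw [← map_add, ← h5]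
      rw [C.bd_bd two, add_zero, hrb] at h6
      exact h6.symm
    · intro x s h u hu
      unfold pp at h
      split_ifs at h with h6 h7
      · exact absurd rfl h
      · rcases List.mem_cons.1 hu with rfl | hu
        · exact h6
        · by_cases h8 : r x s = 0
          · rw [h8, zero_add] at h
            exact hr1 _ s h u hu
          · exact hr1 x s h8 u hu
      · exact absurd rfl h
    · intro x
      unfold pp
      rw [if_neg (by simp)]
      cases hx : C.crd x v
      · rw [if_neg (by simp), if_neg]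
        intro h
        rw [h v (by simp)] at hx
        exact absurd hx (by simp)
      · rw [if_pos rfl, hr2, hr2]
        have h6 : ∀ y : X, (∀ u, u ≠ v → C.crd y u = C.crd x u) →
            ((∀ u ∈ l, C.crd y u = true) ↔ ∀ u ∈ v :: l, C.crd x u = true) := by
          intro y hy
          constructor
          · intro h u hu
            rcases List.mem_cons.1 hu with rfl | hu'
            · exact hx
            · have hne : u ≠ v := fun h' => hl.1 (h' ▸ hu')
              rw [← hy u hne]
              exact h u hu'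
          · intro h u hu
            have hne : u ≠ v := fun h' => hl.1 (h' ▸ hu)
            rw [hy u hne]
            exact h u (List.mem_cons_of_mem _ hu)
        have h7 := h6 x (fun _ _ => rfl)
        have h8 := h6 (C.tau v x) (fun u hu => C.crd_ne u v x hu)
        by_cases h9 : ∀ u ∈ v :: l, C.crd x u = true
        · rw [if_pos (h7.2 h9), if_pos (h8.2 h9), if_pos h9]
          rfl
        · rw [if_neg (fun h => h9 (h7.1 h)), if_neg (fun h => h9 (h8.1 h)), if_neg h9, add_zero]
    · intro x s h
      by_cases h6 : C.hh v r x s = 0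
      · have h7 : e x s ≠ 0 := by
          intro h8
          apply h
          simp only [Pi.add_apply]
          rw [h6, h8, add_zero]
        exact het x s h7
      · exact h4 x s h6
    · rw [map_add, ← add_assoc, ← h5]
      exact hfe

lemma column (two : ∀ a : A, a + a = 0) {p : ℕ} {f : X → Finset V → A} (hf : f ∈ C.K A p)
    {t : Finset V} (ht : C.Clq t) (hs : ST f t) (hb : C.bd f = 0)
    (h0 : p = 0 → ∀ x, C.cs t.toList (fun y => f y ∅) x = 0) :
    ∃ e ∈ C.K A (p + 1), ST e t ∧ C.bd e = f := by
  classical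
  obtain ⟨r, hr, hrt, hrb, hr1, hr2, e, he, het, hfe⟩ :=
    C.column_aux two hf ht hs hb t.toList t.nodup_toList (fun v hv => mem_toList.1 hv)
  refine ⟨e, he, het, ?_⟩
  have h1 : r = 0 := by
    funext x s
    by_contra h
    have h2 : s = ∅ := by
      rw [eq_empty_iff_forall_notMem]
      intro v hv
      exact hr1 x s h v (mem_toList.2 (hrt x s h hv)) hv
    subst h2
    have h3 := (K_supp hr h).2
    rw [card_empty] at h3
    apply h
    rw [hr2, h0 h3.symm]
    simp
  rw [hfe, h1, zero_add]

lemma col_pos (two : ∀ a : A, a + a = 0) {p q k : ℕ} {b : X → Finset V → Finset V → A}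
    (h : b ∈ C.BB A p q k) (hb : C.bd b = 0) (h0 : p = 0 → C.aug b = 0) :
    ∃ e ∈ C.BB A (p + 1) q k, C.bd e = b := by
  classical
  have h1 : ∀ t, C.Clq t → ∃ e ∈ C.K A (p + 1), ST e t ∧ C.bd e = fun x s => b x s t := by
    intro t ht
    refine C.column two (t := t) (f := fun x s => b x s t) ⟨fun x s h1 => ?_, fun x s v hs hv => ?_, fun g x s => ?_⟩ ht
      (fun x s h1 => (BB_supp h h1).1) ?_ ?_
    · exact (BB_supp h h1).2.2.2
    · exact BB_tau h hs hv x t
    · exact BB_smul h g x s t
    · funext x s
      have h2 := C.bd_apply2 b x s t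
      rw [hb] at h2
      exact h2.symm
    · intro hp x
      have h2 := C.aug_clq ht b x
      rw [h0 hp] at h2
      exact h2.symm
  choose! e he1 he2 he3 using h1
  refine ⟨fun x s t => if C.Clq t ∧ t.card + k = q then e t x s else 0, ⟨⟨fun x s h2 => ?_,
    fun x s v hs hv => ?_, fun g x s => ?_⟩, fun x s t h2 => ?_⟩, ?_⟩
  · obtain ⟨t, ht⟩ : ∃ t, (if C.Clq t ∧ t.card + k = q then e t x s else 0) ≠ 0 := by
      by_contra hc
      push Not at hc
      exact h2 (funext hc)
    split_ifs at ht with h3
    · exact K_supp (he1 t h3.1) ht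
    · exact absurd rfl ht
  · funext t
    simp only
    split_ifs with h3
    · exact K_tau (he1 t h3.1) hs hv x
    · rfl
  · funext t
    simp only [Pi.smul_apply]
    split_ifs with h3
    · exact K_smul (he1 t h3.1) g x s
    · rw [smul_zero]
  · simp only at h2
    split_ifs at h2 with h3
    · exact ⟨he2 t h3.1 x s h2, h3.1, h3.2⟩
    · exact absurd rfl h2
  · funext x s t
    rw [bd_apply2]
    by_cases h3 : C.Clq t ∧ t.card + k = q
    · simp only [if_pos h3]
      exact congrFun (congrFun (he3 t h3.1) x) s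
    · simp only [if_neg h3]
      rw [sum_const_zero, BB_zero h (fun h' => h3 ⟨h'.2.1, h'.2.2.1⟩)]

end CC

end Pool.Agent.H68.TL
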