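import Pool.Agent.H57.CD.Bd

/-!
# helper57, CD, B3: the double complex `b x s t`, `s ⊆ t`

`BB A p q k`: equivariant functions `b x s t`, supported on cliques `s ⊆ t` with `|s| = p`, `|t| + k = q`.
-/

namespace Pool.Agent.H68.TL

open Finset

set_option linter.unusedSectionVars false

variable {V X Γ : Type} [Fintype V] [DecidableEq V] [Group Γ] [MulAction Γ X]

namespace CC

variable (C : CC V X Γ)

section defs

variable (A : Type) [AddCommGroup A] [DistribMulAction Γ A]

/-- the double complex -/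
def BB (p q k : ℕ) : AddSubgroup (X → Finset V → Finset V → A) where
  carrier := {b | b ∈ C.K (Finset V → A) p ∧
    ∀ x s t, b x s t ≠ 0 → s ⊆ t ∧ C.Clq t ∧ t.card + k = q}
  zero_mem' := ⟨zero_mem _, fun _ _ _ h => absurd rfl h⟩
  add_mem' := by
    rintro a b ⟨h1, h2⟩ ⟨h1', h2'⟩
    refine ⟨add_mem h1 h1', fun x s t h => ?_⟩
    by_cases h0 : a x s t = 0
    · exact h2' x s t (fun h' => h (by simp [h0, h']))
    · exact h2 x s t h0
  neg_mem' := by
    rintro a ⟨h1, h2⟩
    exact ⟨neg_mem h1, fun x s t h => h2 x s t (fun h' => h (by simp [h']))⟩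

end defs

section ops

variable {A : Type} [AddCommGroup A]

open Classical in
/-- the differential in `t` -/
noncomputable def dt : (X → Finset V → Finset V → A) →+ (X → Finset V → Finset V → A) where
  toFun b x s t := if C.Clq t ∧ s ⊆ t then ∑ u ∈ t \ s, b x s (t.erase u) else 0
  map_zero' := by funext x s t; simp
  map_add' f g := by
    funext x s t
    simp only [Pi.add_apply]
    split_ifs
    · rw [← sum_add_distrib]
    · simp

lemma dt_pos {s t : Finset V} (h : C.Clq t ∧ s ⊆ t) (b : X → Finset V → Finset V → A) (x : X) :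
    C.dt b x s t = ∑ u ∈ t \ s, b x s (t.erase u) := if_pos h

lemma dt_neg {s t : Finset V} (h : ¬ (C.Clq t ∧ s ⊆ t)) (b : X → Finset V → Finset V → A)
    (x : X) : C.dt b x s t = 0 := if_neg h

/-- the sum over `t` -/
def lam (_C : CC V X Γ) : (X → Finset V → Finset V → A) →+ (X → Finset V → A) where
  toFun b x s := ∑ t, b x s t
  map_zero' := by funext x s; simp
  map_add' f g := by
    funext x s
    simp only [Pi.add_apply]
    rw [← sum_add_distrib]

lemma lam_apply (b : X → Finset V → Finset V → A) (x : X) (s : Finset V) :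
    C.lam b x s = ∑ t, b x s t := rfl

lemma bd_apply2 (b : X → Finset V → Finset V → A) (x : X) (s t : Finset V) :
    C.bd b x s t = ∑ v ∈ sᶜ, b x (insert v s) t := by
  rw [bd_apply, Finset.sum_apply]

variable [DistribMulAction Γ A]

variable {C}

lemma BB_K {p q k : ℕ} {b : X → Finset V → Finset V → A} (h : b ∈ C.BB A p q k) :
    b ∈ C.K (Finset V → A) p := h.1

lemma BB_supp {p q k : ℕ} {b : X → Finset V → Finset V → A} (h : b ∈ C.BB A p q k) {x : X}
    {s t : Finset V} (h0 : b x s t ≠ 0) :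
    s ⊆ t ∧ C.Clq t ∧ t.card + k = q ∧ C.Clq s ∧ s.card = p := by
  obtain ⟨h1, h2, h3⟩ := h.2 x s t h0
  have h4 : b x s ≠ 0 := fun h' => h0 (by rw [h']; rfl)
  obtain ⟨h5, h6⟩ := K_supp h.1 h4
  exact ⟨h1, h2, h3, h5, h6⟩

lemma BB_zero {p q k : ℕ} {b : X → Finset V → Finset V → A} (h : b ∈ C.BB A p q k)
    {s t : Finset V} (h0 : ¬ (s ⊆ t ∧ C.Clq t ∧ t.card + k = q ∧ C.Clq s ∧ s.card = p)) (x : X) :
    b x s t = 0 := by
  by_contra h1
  exact h0 (BB_supp h h1)

lemma BB_tau {p q k : ℕ} {b : X → Finset V → Finset V → A} (h : b ∈ C.BB A p q k)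
    {s : Finset V} (hs : C.Clq s) {v : V} (hv : v ∈ s) (x : X) (t : Finset V) :
    b (C.tau v x) s t = b x s t := by rw [K_tau h.1 hs hv]

lemma BB_smul {p q k : ℕ} {b : X → Finset V → Finset V → A} (h : b ∈ C.BB A p q k)
    (g : Γ) (x : X) (s t : Finset V) : b (g • x) s t = g • b x s t := by
  rw [K_smul h.1]; rfl

lemma BB_shift {p q k : ℕ} {b : X → Finset V → Finset V → A} :
    b ∈ C.BB A p (q + 1) (k + 1) ↔ b ∈ C.BB A p q k := by
  constructor
  · rintro ⟨h1, h2⟩
    refine ⟨h1, fun x s t h => ?_⟩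
    obtain ⟨h3, h4, h5⟩ := h2 x s t h
    exact ⟨h3, h4, by omega⟩
  · rintro ⟨h1, h2⟩
    refine ⟨h1, fun x s t h => ?_⟩
    obtain ⟨h3, h4, h5⟩ := h2 x s t h
    exact ⟨h3, h4, by omega⟩

variable (C)

lemma dt_mem {p q k : ℕ} {b : X → Finset V → Finset V → A} (h : b ∈ C.BB A p q (k + 1)) :
    C.dt b ∈ C.BB A p q k := by
  have key : ∀ x s t, C.dt b x s t ≠ 0 →
      s ⊆ t ∧ C.Clq t ∧ t.card + k = q ∧ C.Clq s ∧ s.card = p := by
    intro x s t h0
    by_cases ht : C.Clq t ∧ s ⊆ t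
    · rw [C.dt_pos ht] at h0
      obtain ⟨u, hu, hu2⟩ := exists_ne_zero_of_sum_ne_zero h0
      have h1 := BB_supp h hu2
      rw [mem_sdiff] at hu
      rw [card_erase_of_mem hu.1] at h1
      have : 0 < t.card := card_pos.2 ⟨u, hu.1⟩
      exact ⟨ht.2, ht.1, by omega, h1.2.2.2⟩
    · exact absurd (C.dt_neg ht b x) h0
  refine ⟨⟨fun x s h0 => ?_, fun x s v hs hv => ?_, fun g x s => ?_⟩, fun x s t h0 => ?_⟩
  · obtain ⟨t, ht⟩ : ∃ t, C.dt b x s t ≠ 0 := by
      by_contra hc
      push Not at hc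
      exact h0 (funext hc)
    exact (key x s t ht).2.2.2
  · funext t
    by_cases ht : C.Clq t ∧ s ⊆ t
    · rw [C.dt_pos ht, C.dt_pos ht]
      exact sum_congr rfl fun u _ => BB_tau h hs hv x _
    · rw [C.dt_neg ht, C.dt_neg ht]
  · funext t
    change C.dt b (g • x) s t = g • C.dt b x s t
    by_cases ht : C.Clq t ∧ s ⊆ t
    · rw [C.dt_pos ht, C.dt_pos ht, smul_sum]
      exact sum_congr rfl fun u _ => BB_smul h g x _ _
    · rw [C.dt_neg ht, C.dt_neg ht, smul_zero]
  · have h1 := key x s t h0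
    exact ⟨h1.1, h1.2.1, h1.2.2.1⟩

lemma bd_mem2 {p q k : ℕ} {b : X → Finset V → Finset V → A} (h : b ∈ C.BB A (p + 1) q k) :
    C.bd b ∈ C.BB A p q k := by
  refine ⟨C.bd_mem h.1, fun x s t h0 => ?_⟩
  rw [bd_apply2] at h0
  obtain ⟨v, hv, hv2⟩ := exists_ne_zero_of_sum_ne_zero h0
  have h1 := BB_supp h hv2
  exact ⟨(subset_insert v s).trans h1.1, h1.2.1, h1.2.2.1⟩

lemma lam_mem {p q k : ℕ} {b : X → Finset V → Finset V → A} (h : b ∈ C.BB A p q k) :
    C.lam b ∈ C.K A p := by
  refine ⟨fun x s h0 => ?_, fun x s v hs hv => ?_, fun g x s => ?_⟩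
  · rw [lam_apply] at h0
    obtain ⟨t, _, ht⟩ := exists_ne_zero_of_sum_ne_zero h0
    exact (BB_supp h ht).2.2.2
  · rw [lam_apply, lam_apply]
    exact sum_congr rfl fun t _ => BB_tau h hs hv x t
  · rw [lam_apply, lam_apply, smul_sum]
    exact sum_congr rfl fun t _ => BB_smul h g x s t

omit [DistribMulAction Γ A] in
lemma lam_bd (b : X → Finset V → Finset V → A) : C.lam (C.bd b) = C.bd (C.lam b) := by
  funext x s
  rw [lam_apply, sum_congr rfl (fun t _ => C.bd_apply2 b x s t), sum_comm]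
  rfl

lemma dt_bd {p q k : ℕ} {b : X → Finset V → Finset V → A} (h : b ∈ C.BB A p q k) :
    C.dt (C.bd b) = C.bd (C.dt b) := by
  funext x s t
  rw [bd_apply2]
  by_cases ht : C.Clq t ∧ s ⊆ t
  · rw [C.dt_pos ht]
    simp only [bd_apply2]
    rw [sum_comm]
    refine sum_congr rfl fun v hv => ?_
    rw [mem_compl] at hv
    by_cases hvt : v ∈ t
    · have h1 : C.Clq t ∧ insert v s ⊆ t := ⟨ht.1, insert_subset hvt ht.2⟩
      rw [C.dt_pos h1]
      have h2 : t \ s = insert v (t \ insert v s) := by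
        ext w
        simp only [mem_sdiff, mem_insert]
        constructor
        · rintro ⟨a, b⟩
          by_cases hw : w = v
          · exact Or.inl hw
          · exact Or.inr ⟨a, fun h => h.elim hw b⟩
        · rintro (rfl | ⟨a, b⟩)
          · exact ⟨hvt, hv⟩
          · exact ⟨a, fun h => b (Or.inr h)⟩
      rw [h2, sum_insert (by simp)]
      have h3 : b x (insert v s) (t.erase v) = 0 := by
        refine BB_zero h (fun h' => ?_) x
        have := h'.1 (mem_insert_self v s)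
        simp at this
      rw [h3, zero_add]
    · rw [C.dt_neg (fun h' => hvt (h'.2 (mem_insert_self v s)))]
      refine sum_eq_zero fun u hu => ?_
      refine BB_zero h (fun h' => ?_) x
      exact hvt (mem_of_mem_erase (h'.1 (mem_insert_self v s)))
  · rw [C.dt_neg ht]
    symm
    refine sum_eq_zero fun v hv => ?_
    exact C.dt_neg (fun h' => ht ⟨h'.1, (subset_insert v s).trans h'.2⟩) b x

lemma dt_dt (two : ∀ a : A, a + a = 0) (b : X → Finset V → Finset V → A) :
    C.dt (C.dt b) = 0 := by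
  funext x s t
  by_cases ht : C.Clq t ∧ s ⊆ t
  · rw [C.dt_pos ht]
    have h1 : ∀ u ∈ t \ s, C.dt b x s (t.erase u) =
        ∑ w ∈ (t \ s).erase u, b x s ((t.erase u).erase w) := by
      intro u hu
      rw [mem_sdiff] at hu
      rw [C.dt_pos ⟨ht.1.mono (erase_subset u t), fun w hw => mem_erase.2
        ⟨fun h => hu.2 (h ▸ hw), ht.2 hw⟩⟩]
      refine sum_congr ?_ fun _ _ => rfl
      ext w
      simp only [mem_sdiff, mem_erase]
      tauto
    rw [sum_congr rfl h1, sum_sigma', Pi.zero_apply, Pi.zero_apply, Pi.zero_apply]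
    refine sum_involution (fun p _ => ⟨p.2, p.1⟩) ?_ ?_ ?_ ?_
    · rintro ⟨v, u⟩ hp
      simp only
      rw [erase_right_comm]
      exact two _
    · rintro ⟨v, u⟩ hp _ heq
      simp only [mem_sigma, mem_erase] at hp
      have : u = v := congrArg Sigma.fst heq
      exact hp.2.1 this
    · rintro ⟨v, u⟩ hp
      simp only [mem_sigma, mem_erase] at hp ⊢
      exact ⟨hp.2.2, fun h => hp.2.1 h.symm, hp.1⟩
    · rintro ⟨v, u⟩ _
      rfl
  · exact C.dt_neg ht _ x

end ops

end CC

end Pool.Agent.H68.TL
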