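import Pool.Agent.H57.CD.Col

/-!
# helper57, CD, B3: exactness of the rows
-/

namespace Pool.Agent.H68.TL

open Finset

set_option linter.unusedSectionVars false

variable {V X Γ : Type} [Fintype V] [DecidableEq V] [Group Γ] [MulAction Γ X]

namespace CC

variable (C : CC V X Γ)

open Classical in
/-- the links of the cliques are homology spheres, in the form used for the rows -/
structure Rows (C : CC V X Γ) (N : ℕ) (A : Type) [AddCommGroup A] : Prop where
  dim : ∀ t, C.Clq t → t.card ≤ N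
  facet : ∀ s, C.Clq s → ∃ t, s ⊆ t ∧ C.Clq t ∧ t.card = N
  row : ∀ s, C.Clq s → ∀ q, q < N → ∀ c : Finset V → A,
    (∀ t, s ⊆ t → C.Clq t → t.card = q + 1 → ∑ u ∈ t \ s, c (t.erase u) = 0) →
    ∃ b : Finset V → A, ∀ t, s ⊆ t → C.Clq t → t.card = q → ∑ u ∈ t \ s, b (t.erase u) = c t
  top : ∀ s, C.Clq s → ∀ c : Finset V → A,
    (∑ t ∈ univ.filter (fun t => s ⊆ t ∧ C.Clq t ∧ t.card = N), c t = 0) →
    ∃ b : Finset V → A, ∀ t, s ⊆ t → C.Clq t → t.card = N → ∑ u ∈ t \ s, b (t.erase u) = c t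
  top0 : ∀ s, C.Clq s → ∀ b : Finset V → A,
    ∑ t ∈ univ.filter (fun t => s ⊆ t ∧ C.Clq t ∧ t.card = N), ∑ u ∈ t \ s, b (t.erase u) = 0

lemma lift_rel {A B : Type} [AddCommGroup A] [DistribMulAction Γ A] [AddCommGroup B]
    [DistribMulAction Γ B] (R : Finset V → A → B → Prop)
    (hR : ∀ (g : Γ) s a b, R s a b → R s (g • a) (g • b)) {m : ℕ}
    {w : X → Finset V → B} (hw : w ∈ C.K B m)
    (hr : ∀ x s, C.Clq s → s.card = m → ∃ a, R s a (w x s)) :
    ∃ f ∈ C.K A m, ∀ x s, C.Clq s → s.card = m → R s (f x s) (w x s) := by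
  classical
  obtain ⟨r, g, hg, hr2, hg2⟩ := C.exists_orbit_rep
  choose! p hp using hr
  refine ⟨fun x s => if C.Clq s ∧ s.card = m then
    g (C.rp s.toList x) • p (r (C.rp s.toList x)) s else 0, ⟨?_, ?_, ?_⟩, ?_⟩
  · intro x s h
    by_contra h0
    exact h (if_neg h0)
  · intro x s v hs hv
    by_cases h : C.Clq s ∧ s.card = m
    · simp only [if_pos h]
      rw [C.rp_tau s.toList s.nodup_toList (C.clq_list h.1) (mem_toList.2 hv)]
    · simp only [if_neg h]
  · intro h x s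
    by_cases hs : C.Clq s ∧ s.card = m
    · simp only [if_pos hs]
      rw [C.rp_smul, hr2, hg2, mul_smul]
    · simp only [if_neg hs]
      rw [smul_zero]
  · intro x s h1 h2
    simp only [if_pos (And.intro h1 h2)]
    have h3 := hR (g (C.rp s.toList x)) s _ _ (hp (r (C.rp s.toList x)) s h1 h2)
    rw [← K_smul hw, hg] at h3
    rwa [C.rp_inv (fun y => w y s) s.toList
        (fun v hv y => K_tau hw h1 (mem_toList.1 hv) y) x] at h3

variable {C}

variable {A : Type} [AddCommGroup A] [DistribMulAction Γ A]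

lemma row_lift {p q : ℕ} {b : X → Finset V → Finset V → A} (h : b ∈ C.BB A p q 0)
    (hr : ∀ x s, C.Clq s → s.card = p → ∃ a : Finset V → A,
      ∀ t, s ⊆ t → C.Clq t → t.card = q → ∑ u ∈ t \ s, a (t.erase u) = b x s t) :
    ∃ e ∈ C.BB A p q 1, C.dt e = b := by
  classical
  let R : Finset V → (Finset V → A) → (Finset V → A) → Prop := fun s a c =>
    ∀ t, s ⊆ t → C.Clq t → t.card = q → ∑ u ∈ t \ s, a (t.erase u) = c t
  obtain ⟨f, hf, hf2⟩ := C.lift_rel R (fun g s a c hac t h1 h2 h3 => by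
    simp only [Pi.smul_apply]
    rw [← smul_sum, hac t h1 h2 h3]) h.1 hr
  have hsupp : ∀ x s t, (if s ⊆ t ∧ C.Clq t ∧ t.card + 1 = q then f x s t else 0) ≠ 0 →
      (s ⊆ t ∧ C.Clq t ∧ t.card + 1 = q) ∧ f x s t ≠ 0 := by
    intro x s t h0
    split_ifs at h0 with h1
    · exact ⟨h1, h0⟩
    · exact absurd rfl h0
  refine ⟨fun x s t => if s ⊆ t ∧ C.Clq t ∧ t.card + 1 = q then f x s t else 0,
    ⟨⟨fun x s h0 => ?_, fun x s v hs hv => ?_, fun g x s => ?_⟩, fun x s t h0 => ?_⟩, ?_⟩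
  · obtain ⟨t, ht⟩ : ∃ t, (if s ⊆ t ∧ C.Clq t ∧ t.card + 1 = q then f x s t else 0) ≠ 0 := by
      by_contra hc
      push Not at hc
      exact h0 (funext hc)
    have h1 := (hsupp x s t ht).2
    exact K_supp hf (fun h2 => h1 (by rw [h2]; rfl))
  · funext t
    simp only
    rw [K_tau hf hs hv]
  · funext t
    simp only [Pi.smul_apply]
    rw [K_smul hf]
    split_ifs
    · rfl
    · rw [smul_zero]
  · exact (hsupp x s t h0).1
  · funext x s t
    by_cases h1 : s ⊆ t ∧ C.Clq t ∧ t.card + 0 = q ∧ C.Clq s ∧ s.card = p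
    · rw [C.dt_pos ⟨h1.2.1, h1.1⟩, ← hf2 x s h1.2.2.2.1 h1.2.2.2.2 t h1.1 h1.2.1 h1.2.2.1]
      refine sum_congr rfl fun u hu => ?_
      rw [mem_sdiff] at hu
      have h2 : 0 < t.card := card_pos.2 ⟨u, hu.1⟩
      rw [if_pos]
      refine ⟨fun w hw => mem_erase.2 ⟨fun h' => hu.2 (h' ▸ hw), h1.1 hw⟩,
        h1.2.1.mono (erase_subset u t), ?_⟩
      rw [card_erase_of_mem hu.1]
      omega
    · rw [BB_zero h h1]
      by_cases h2 : C.Clq t ∧ s ⊆ t
      · rw [C.dt_pos h2]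
        refine sum_eq_zero fun u hu => ?_
        rw [mem_sdiff] at hu
        have h2' : 0 < t.card := card_pos.2 ⟨u, hu.1⟩
        by_contra hne
        have h3 := hsupp _ _ _ hne
        have h4 := K_supp hf (fun h2 => h3.2 (by rw [h2]; rfl))
        refine h1 ⟨h2.2, h2.1, ?_, h4.1, h4.2⟩
        have h5 := h3.1.2.2
        rw [card_erase_of_mem hu.1] at h5
        omega
      · exact C.dt_neg h2 _ x

lemma row_ex {N : ℕ} (H : C.Rows N A) {p q : ℕ} (hq : q < N) {b : X → Finset V → Finset V → A}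
    (h : b ∈ C.BB A p q 0) (hb : C.dt b = 0) : ∃ e ∈ C.BB A p q 1, C.dt e = b := by
  refine row_lift h (fun x s hs _ => H.row s hs q hq (b x s) (fun t h1 h2 _ => ?_))
  rw [← C.dt_pos ⟨h2, h1⟩, hb]
  rfl

lemma sum_filter_BB {N p k : ℕ} {b : X → Finset V → Finset V → A} (h : b ∈ C.BB A p N k)
    (hk : k = 0) (x : X) (s : Finset V) [DecidablePred fun t => s ⊆ t ∧ C.Clq t ∧ t.card = N] :
    ∑ t ∈ univ.filter (fun t => s ⊆ t ∧ C.Clq t ∧ t.card = N), b x s t = C.lam b x s := by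
  rw [lam_apply, sum_filter]
  refine sum_congr rfl fun t _ => ?_
  split_ifs with h1
  · rfl
  · symm
    exact BB_zero h (fun h2 => h1 ⟨h2.1, h2.2.1, by rw [← h2.2.2.1, hk]; rfl⟩) x

lemma top_ex {N : ℕ} (H : C.Rows N A) {p : ℕ} {b : X → Finset V → Finset V → A}
    (h : b ∈ C.BB A p N 0) (hb : C.lam b = 0) : ∃ e ∈ C.BB A p N 1, C.dt e = b := by
  classical
  refine row_lift h (fun x s hs _ => H.top s hs (b x s) ?_)
  have h1 := sum_filter_BB h rfl x s
  rw [hb] at h1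
  simp only [Pi.zero_apply] at h1
  convert h1

lemma lam_dt {N : ℕ} (H : C.Rows N A) {p : ℕ} {e : X → Finset V → Finset V → A}
    (h : e ∈ C.BB A p N 1) : C.lam (C.dt e) = 0 := by
  classical
  funext x s
  by_cases hs : C.Clq s
  · have h1 := sum_filter_BB (C.dt_mem h) rfl x s
    rw [← h1]
    have h2 := H.top0 s hs (e x s)
    simp only [Pi.zero_apply]
    rw [← h2]
    refine sum_congr ?_ fun t ht => ?_
    · congr
    · rw [mem_filter] at ht
      exact C.dt_pos ⟨ht.2.2.1, ht.2.1⟩ e x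
  · exact K_zero (C.lam_mem (C.dt_mem h)) (fun h' => hs h'.1) x

lemma lam_surj {N : ℕ} (H : C.Rows N A) {p : ℕ} {c : X → Finset V → A} (h : c ∈ C.K A p) :
    ∃ b ∈ C.BB A p N 0, C.lam b = c := by
  classical
  have h1 := H.facet
  choose! F hF1 hF2 hF3 using h1
  refine ⟨fun x s t => if C.Clq s ∧ t = F s then c x s else 0,
    ⟨⟨fun x s h0 => ?_, fun x s v hs hv => ?_, fun g x s => ?_⟩, fun x s t h0 => ?_⟩, ?_⟩
  · refine K_supp h (x := x) (fun h2 => h0 (funext fun t => ?_))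
    simp [h2]
  · funext t
    simp only
    rw [K_tau h hs hv]
  · funext t
    simp only [Pi.smul_apply]
    rw [K_smul h]
    split_ifs
    · rfl
    · rw [smul_zero]
  · simp only at h0
    split_ifs at h0 with h2
    · rw [h2.2]
      exact ⟨hF1 s h2.1, hF2 s h2.1, hF3 s h2.1⟩
    · exact absurd rfl h0
  · funext x s
    rw [lam_apply]
    by_cases hs : C.Clq s
    · rw [sum_eq_single (F s)]
      · rw [if_pos ⟨hs, rfl⟩]
      · intro t _ ht
        rw [if_neg (fun h' => ht h'.2)]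
      · intro h'
        exact absurd (mem_univ _) h'
    · rw [K_zero h (fun h' => hs h'.1)]
      exact sum_eq_zero fun t _ => if_neg (fun h' => hs h'.1)

end CC

end Pool.Agent.H68.TL
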