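import Pool.Agent.H57.CD.Row

/-!
# helper57, CD, B3: duality, `bd` exact at `N - m` iff `dlt` exact at `m`
-/

namespace Pool.Agent.H68.TL

open Finset

set_option linter.unusedSectionVars false

variable {V X Γ : Type} [Fintype V] [DecidableEq V] [Group Γ] [MulAction Γ X]

namespace CC

variable {C : CC V X Γ} {A : Type} [AddCommGroup A] [DistribMulAction Γ A]

lemma BB_big {N : ℕ} (H : C.Rows N A) {p k : ℕ} {b : X → Finset V → Finset V → A} {q : ℕ}
    (hq : N + k < q) (h : b ∈ C.BB A p q k) : b = 0 := by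
  funext x s t
  by_contra h0
  have h1 := BB_supp h h0
  have := H.dim t h1.2.1
  omega

lemma K_big {N : ℕ} (H : C.Rows N A) {p : ℕ} {c : X → Finset V → A} (hp : N < p)
    (h : c ∈ C.K A p) : c = 0 := by
  funext x s
  by_contra h0
  have h1 := K_supp h h0
  have := H.dim s h1.1
  omega

omit [DistribMulAction Γ A] in
lemma bd_bd2 (two : ∀ a : A, a + a = 0) (b : X → Finset V → Finset V → A) :
    C.bd (C.bd b) = 0 := C.bd_bd (fun a => funext fun t => two (a t)) b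

/-- zigzag upwards, positive column index -/
lemma zig_pos (two : ∀ a : A, a + a = 0) {N : ℕ} (H : C.Rows N A) (d : ℕ) :
    ∀ i q : ℕ, q + d = N → C.ExB A (i + 1 + d) → ∀ b ∈ C.BB A (i + 1) q 0,
      (∃ a ∈ C.BB A i q 1, C.dt a = C.bd b) →
      ∃ e ∈ C.BB A (i + 1) q 1, ∃ e' ∈ C.BB A (i + 2) q 0, b = C.dt e + C.bd e' := by
  induction d with
  | zero =>
    intro i q hq hE b hb ⟨a, ha, hab⟩
    rw [add_zero] at hq hE
    subst hq
    have h1 : C.bd (C.lam b) = 0 := by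
      rw [← lam_bd, ← hab, lam_dt H ha]
    obtain ⟨g, hg, hgb⟩ := hE _ (C.lam_mem hb) h1
    obtain ⟨e', he', hge⟩ := lam_surj H hg
    have h2 : b - C.bd e' ∈ C.BB A (i + 1) q 0 := sub_mem hb (C.bd_mem2 he')
    obtain ⟨e, he, hee⟩ := top_ex H h2 (by rw [map_sub, lam_bd, hge, hgb, sub_self])
    exact ⟨e, he, e', he', by rw [hee, sub_add_cancel]⟩
  | succ d ih =>
    intro i q hq hE b hb ⟨a, ha, hab⟩
    have h1 : C.dt b ∈ C.BB A (i + 1) (q + 1) 0 := C.dt_mem (BB_shift.2 hb)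
    have h2 : C.bd (C.dt b) = 0 := by rw [← C.dt_bd hb, ← hab, C.dt_dt two]
    obtain ⟨b', hb', hbb⟩ := C.col_pos two h1 h2 (by omega)
    obtain ⟨e1, he1, e1', he1', hb1⟩ := ih (i + 1) (q + 1) (by omega)
      (by rw [show i + 1 + 1 + d = i + 1 + (d + 1) by omega]; exact hE) b' hb'
      ⟨b, BB_shift.2 hb, hbb.symm⟩
    have he1'' : e1 ∈ C.BB A (i + 2) q 0 := BB_shift.1 he1
    have h3 : C.dt (b - C.bd e1) = 0 := by
      rw [map_sub, C.dt_bd he1'', ← hbb, hb1, map_add, bd_bd2 two, add_zero, sub_self]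
    obtain ⟨e, he, hee⟩ := row_ex H (by omega) (sub_mem hb (C.bd_mem2 he1'')) h3
    exact ⟨e, he, e1, he1'', by rw [hee, sub_add_cancel]⟩

/-- `bd` exact at `N - m` implies `dlt` exact at `m` -/
theorem dlt_of_bd (two : ∀ a : A, a + a = 0) {N : ℕ} (H : C.Rows N A) {m d : ℕ} (hm : m + d = N)
    (hE : C.ExB A d) : ∀ z ∈ C.K A m, C.dlt z = 0 → ∃ e ∈ C.BB A 0 m 1, C.dlt (C.aug e) = z := by
  intro z hz hz0
  obtain ⟨b, hb, hbz⟩ := C.aug_surj hz
  have main : ∃ e ∈ C.BB A 0 m 1, ∃ e' ∈ C.BB A 1 m 0, b = C.dt e + C.bd e' := by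
    cases d with
    | zero =>
      rw [add_zero] at hm
      subst hm
      have h1 : C.bd (C.lam b) = 0 := by
        have h2 := C.lam_mem hb
        funext x s
        rw [bd_apply]
        refine sum_eq_zero fun v hv => K_zero h2 (fun h3 => ?_) x
        have := h3.2
        rw [card_insert_of_notMem (mem_compl.1 hv)] at this
        omega
      obtain ⟨g, hg, hgb⟩ := hE _ (C.lam_mem hb) h1
      obtain ⟨e', he', hge⟩ := lam_surj H hg
      have h2 : b - C.bd e' ∈ C.BB A 0 m 0 := sub_mem hb (C.bd_mem2 he')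
      obtain ⟨e, he, hee⟩ := top_ex H h2 (by rw [map_sub, lam_bd, hge, hgb, sub_self])
      exact ⟨e, he, e', he', by rw [hee, sub_add_cancel]⟩
    | succ d =>
      have h1 : C.dt b ∈ C.BB A 0 (m + 1) 0 := C.dt_mem (BB_shift.2 hb)
      have h2 : C.bd (C.dt b) = 0 := by
        funext x s t
        rw [bd_apply2]
        refine sum_eq_zero fun v hv => BB_zero h1 (fun h3 => ?_) x
        have := h3.2.2.2.2
        rw [card_insert_of_notMem (mem_compl.1 hv)] at this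
        omega
      obtain ⟨b', hb', hbb⟩ := C.col_pos two h1 h2 (fun _ => by rw [C.aug_dt, hbz, hz0])
      obtain ⟨e1, he1, e1', he1', hb1⟩ := zig_pos two H d 0 (m + 1) (by omega)
        (by rw [show 0 + 1 + d = d + 1 by omega]; exact hE) b' hb' ⟨b, BB_shift.2 hb, hbb.symm⟩
      have he1'' : e1 ∈ C.BB A 1 m 0 := BB_shift.1 he1
      have h3 : C.dt (b - C.bd e1) = 0 := by
        rw [map_sub, C.dt_bd he1'', ← hbb, hb1, map_add, bd_bd2 two, add_zero, sub_self]
      obtain ⟨e, he, hee⟩ := row_ex H (by omega) (sub_mem hb (C.bd_mem2 he1'')) h3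
      exact ⟨e, he, e1, he1'', by rw [hee, sub_add_cancel]⟩
  obtain ⟨e, he, e', he', hbe⟩ := main
  refine ⟨e, he, ?_⟩
  rw [← hbz, hbe, map_add, C.aug_bd two he', add_zero, C.aug_dt]

/-- zigzag downwards -/
lemma zag (two : ∀ a : A, a + a = 0) {N : ℕ} (H : C.Rows N A) (i : ℕ) :
    ∀ q m : ℕ, m + i = q → q ≤ N → (∀ z ∈ C.K A m, C.dlt z = 0 →
        ∃ e ∈ C.BB A 0 m 1, C.dlt (C.aug e) = z) → ∀ b ∈ C.BB A i q 0,
      (q < N → ∃ a ∈ C.BB A (i + 1) (q + 1) 0, C.bd a = C.dt b) →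
      (q = N → C.bd (C.lam b) = 0) →
      ∃ e ∈ C.BB A i q 1, ∃ e' ∈ C.BB A (i + 1) q 0, b = C.dt e + C.bd e' := by
  induction i with
  | zero =>
    intro q m hm hq hE b hb h1 h2
    rw [add_zero] at hm
    subst hm
    have h3 : C.dlt (C.aug b) = 0 := by
      rcases hq.lt_or_eq with h | h
      · obtain ⟨a, ha, hab⟩ := h1 h
        rw [← C.aug_dt, ← hab, C.aug_bd two ha]
      · exact K_big H (by omega) (C.dlt_mem (C.aug_mem (by omega : m + 0 = m) hb))
    obtain ⟨e, he, hee⟩ := hE _ (C.aug_mem (by omega : m + 0 = m) hb) h3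
    have h4 : b - C.dt e ∈ C.BB A 0 m 0 := sub_mem hb (C.dt_mem he)
    have h5 : C.bd (b - C.dt e) = 0 := by
      funext x s t
      rw [bd_apply2]
      refine sum_eq_zero fun v hv => BB_zero h4 (fun h3 => ?_) x
      have := h3.2.2.2.2
      rw [card_insert_of_notMem (mem_compl.1 hv)] at this
      omega
    obtain ⟨e', he', hee'⟩ := C.col_pos two h4 h5 (fun _ => by
      rw [map_sub, C.aug_dt, hee, sub_self])
    exact ⟨e, he, e', he', by rw [hee']; abel⟩
  | succ i ih =>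
    intro q m hm hq hE b hb h1 h2
    have hb1 : C.bd b ∈ C.BB A i q 0 := C.bd_mem2 hb
    obtain ⟨b', hb', hbb⟩ : ∃ b' ∈ C.BB A i q 1, C.dt b' = C.bd b := by
      rcases hq.lt_or_eq with h | h
      · refine row_ex H h hb1 ?_
        obtain ⟨a, ha, hab⟩ := h1 h
        rw [C.dt_bd hb, ← hab, bd_bd2 two]
      · subst h
        exact top_ex H hb1 (by rw [lam_bd]; exact h2 rfl)
    obtain ⟨q, rfl⟩ : ∃ q', q = q' + 1 := ⟨q - 1, by omega⟩
    obtain ⟨e1, he1, e1', he1', hb2⟩ := ih q m (by omega) (by omega) hE b' (BB_shift.1 hb')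
      (fun _ => ⟨b, hb, hbb.symm⟩) (fun h => by omega)
    have he2 : e1' ∈ C.BB A (i + 1) (q + 1) 1 := BB_shift.2 he1'
    have h3 : C.bd (b - C.dt e1') = 0 := by
      rw [map_sub, ← C.dt_bd he1', ← hbb, hb2, map_add, C.dt_dt two, zero_add, sub_self]
    obtain ⟨e', he', hee'⟩ := C.col_pos two (sub_mem hb (C.dt_mem he2)) h3 (by omega)
    exact ⟨e1', he2, e', he', by rw [hee']; abel⟩

/-- from exactness of `dlt` in the form `Ex` -/
lemma of_Ex {m : ℕ} (h : Ex (C.K A) C.dlt m) : ∀ z ∈ C.K A m, C.dlt z = 0 →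
    ∃ e ∈ C.BB A 0 m 1, C.dlt (C.aug e) = z := by
  intro z hz hz0
  cases m with
  | zero => exact ⟨0, zero_mem _, by rw [map_zero, map_zero, h z hz hz0]⟩
  | succ m =>
    obtain ⟨c, hc, hcz⟩ := h z hz hz0
    obtain ⟨b, hb, hbc⟩ := C.aug_surj hc
    exact ⟨b, BB_shift.2 hb, by rw [hbc, hcz]⟩

lemma to_Ex {m : ℕ} (h : ∀ z ∈ C.K A m, C.dlt z = 0 →
    ∃ e ∈ C.BB A 0 m 1, C.dlt (C.aug e) = z) : Ex (C.K A) C.dlt m := by
  cases m with
  | zero =>
    intro z hz hz0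
    obtain ⟨e, he, hez⟩ := h z hz hz0
    have h1 : e = 0 := by
      funext x s t
      by_contra h0
      have := (BB_supp he h0).2.2.1
      omega
    rw [← hez, h1, map_zero, map_zero]
  | succ m =>
    intro z hz hz0
    obtain ⟨e, he, hez⟩ := h z hz hz0
    exact ⟨C.aug e, C.aug_mem rfl he, hez⟩

/-- **Duality.** `bd` exact at `d` implies `dlt` exact at `m`, `m + d = N` -/
theorem dual1 (two : ∀ a : A, a + a = 0) {N : ℕ} (H : C.Rows N A) {m d : ℕ} (hm : m + d = N)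
    (hE : C.ExB A d) : Ex (C.K A) C.dlt m := to_Ex (dlt_of_bd two H hm hE)

/-- **Duality.** `dlt` exact at `m` implies `bd` exact at `d`, `m + d = N` -/
theorem dual2 (two : ∀ a : A, a + a = 0) {N : ℕ} (H : C.Rows N A) {m d : ℕ} (hm : m + d = N)
    (hE : Ex (C.K A) C.dlt m) : C.ExB A d := by
  intro z hz hz0
  obtain ⟨b, hb, hbz⟩ := lam_surj H hz
  obtain ⟨e, he, e', he', hbe⟩ := zag two H d N m hm le_rfl (of_Ex hE) b hb
    (fun h => absurd h (lt_irrefl N)) (fun _ => by rw [hbz, hz0])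
  refine ⟨C.lam e', C.lam_mem he', ?_⟩
  rw [← lam_bd, ← hbz, hbe, map_add, lam_dt H he, zero_add]

theorem dual {N : ℕ} (two : ∀ a : A, a + a = 0) (H : C.Rows N A) {m d : ℕ} (hm : m + d = N) :
    Ex (C.K A) C.dlt m ↔ C.ExB A d := ⟨dual2 two H hm, dual1 two H hm⟩

end CC

end Pool.Agent.H68.TL
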