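import Pool.Agent.H57.CD.Zig
import Pool.Agent.H85.UC4
import Pool.Agent.H85.UC3
import Pool.Agent.H68.TL.Glue

/-!
# helper57, CD, B3: the rows are exact for homology spheres; the final duality statement
-/

namespace Pool.Agent.H68.TL

open Finset Pool.Agent.H85.UC

set_option linter.unusedSectionVars false

section Link

variable {V : Type} [Fintype V] [DecidableEq V]

lemma sdiff_erase_of {s t : Finset V} (u : V) : (t.erase u) \ s = (t \ s).erase u := by
  ext w
  simp only [mem_sdiff, mem_erase]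
  tauto

/-- faces of the link (for any instance of decidable equality) -/
def LkD (Δ : Finset V → Prop) (τ : Finset V) (ρ : Finset V) : Prop := Disjoint ρ τ ∧ Δ (ρ ∪ τ)

/-- reindexing `t ↦ t \ s` -/
lemma sum_link {A : Type} [AddCommGroup A] (Δ : Finset V → Prop) {s : Finset V} {N : ℕ}
    (hs : s.card ≤ N) (c : Finset V → A)
    [DecidablePred fun t => s ⊆ t ∧ Δ t ∧ t.card = N]
    [DecidablePred fun ρ : Finset V => LkD Δ s ρ ∧ ρ.card = N - s.card] :
    ∑ t ∈ univ.filter (fun t => s ⊆ t ∧ Δ t ∧ t.card = N), c t =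
      ∑ ρ ∈ univ.filter (fun ρ : Finset V => LkD Δ s ρ ∧ ρ.card = N - s.card),
        c (ρ ∪ s) := by
  refine sum_nbij' (fun t => t \ s) (fun ρ => ρ ∪ s) ?_ ?_ ?_ ?_ ?_
  · intro t ht
    rw [mem_filter] at ht ⊢
    obtain ⟨_, h1, h2, h3⟩ := ht
    refine ⟨mem_univ _, ⟨sdiff_disjoint, ?_⟩, ?_⟩
    · rw [sdiff_union_of_subset h1]; exact h2
    · rw [card_sdiff_of_subset h1, h3]
  · intro ρ hρ
    rw [mem_filter] at hρ ⊢
    obtain ⟨_, ⟨h1, h2⟩, h3⟩ := hρ
    refine ⟨mem_univ _, subset_union_right, h2, ?_⟩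
    rw [card_union_of_disjoint h1, h3]
    omega
  · intro t ht
    rw [mem_filter] at ht
    exact sdiff_union_of_subset ht.2.1
  · intro ρ hρ
    rw [mem_filter] at hρ
    exact union_sdiff_cancel_right hρ.2.1.1
  · intro t ht
    rw [mem_filter] at ht
    rw [sdiff_union_of_subset ht.2.1]

end Link

namespace CC

variable {V X Γ : Type} [Group Γ] [MulAction Γ X]

section

variable [Fintype V] [LinearOrder V] (C : CC V X Γ)

theorem rows_of_ghs {N : ℕ} (h : GHS (ZMod 2) C.Clq N) (A : Type) [AddCommGroup A]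
    (two : ∀ a : A, a + a = 0) : C.Rows N A := by
  classical
  let _ : Module (ZMod 2) A := AddCommGroup.zmodModule (n := 2) (fun a => by
    rw [two_nsmul]; exact two a)
  refine ⟨fun t ht => h.dim t ht, ?_, ?_, ?_, ?_⟩
  · intro s hs
    have h1 := h.dim s hs
    obtain ⟨ρ, hρ, hc⟩ := h.exists_facet hs (m := N - s.card) (by omega)
    exact ⟨ρ ∪ s, subset_union_right, hρ.2, by rw [card_union_of_disjoint hρ.1, hc]; omega⟩
  · intro s hs q hq c hc
    by_cases hqs : q < s.card
    · refine ⟨0, fun t h1 _ h3 => ?_⟩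
      have := card_le_card h1
      omega
    · push Not at hqs
      obtain ⟨b, _, hb⟩ := (h.sph hs).cohom (p := q - s.card) (by omega) (fun ρ => c (ρ ∪ s))
        (fun ρ hρ hρc => by
          unfold ucb
          have h1 : (ρ ∪ s) \ s = ρ := union_sdiff_cancel_right hρ.1
          have h2 := hc (ρ ∪ s) subset_union_right hρ.2 (by
            rw [card_union_of_disjoint hρ.1, hρc]; omega)
          rw [h1] at h2
          rw [← h2]
          refine sum_congr rfl fun u hu => ?_
          rw [erase_union_distrib, erase_eq_of_notMem (disjoint_left.1 hρ.1 hu)])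
      refine ⟨fun t => b (t \ s), fun t h1 h2 h3 => ?_⟩
      have h4 := hb (t \ s) ⟨sdiff_disjoint, by rw [sdiff_union_of_subset h1]; exact h2⟩ (by
        rw [card_sdiff_of_subset h1, h3])
      unfold ucb at h4
      rw [sdiff_union_of_subset h1] at h4
      rw [← h4]
      exact sum_congr rfl fun u _ => by simp only [sdiff_erase_of]
  · intro s hs c hc
    rw [sum_link C.Clq (h.dim s hs)] at hc
    obtain ⟨b, _, hb⟩ := (h.ones hs (fun ρ => c (ρ ∪ s))).1 hc
    refine ⟨fun t => b (t \ s), fun t h1 h2 h3 => ?_⟩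
    have h4 := hb (t \ s) ⟨sdiff_disjoint, by rw [sdiff_union_of_subset h1]; exact h2⟩ (by
      rw [card_sdiff_of_subset h1, h3])
    unfold ucb at h4
    rw [sdiff_union_of_subset h1] at h4
    rw [← h4]
    exact sum_congr rfl fun u _ => by simp only [sdiff_erase_of]
  · intro s hs b
    rw [sum_link C.Clq (h.dim s hs)]
    refine (h.ones hs (fun ρ => ∑ u ∈ (ρ ∪ s) \ s, b ((ρ ∪ s).erase u))).2
      ⟨fun ρ => if ρ.card + 1 = N - s.card ∧ Lk C.Clq s ρ then b (ρ ∪ s) else 0,
        fun ρ h0 => ?_, fun ρ hρ hρc => ?_⟩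
    · by_contra h1
      exact h0 (if_neg h1)
    · unfold ucb
      rw [union_sdiff_cancel_right hρ.1]
      refine sum_congr rfl fun u hu => ?_
      have h2 : 0 < ρ.card := card_pos.2 ⟨u, hu⟩
      beta_reduce
      rw [if_pos, erase_union_distrib, erase_eq_of_notMem (disjoint_left.1 hρ.1 hu)]
      refine ⟨by rw [card_erase_of_mem hu]; omega, ?_⟩
      exact (h.sph hs).down ρ _ hρ (erase_subset u ρ)

end

section

variable [Fintype V] [DecidableEq V] (C : CC V X Γ)

lemma clq_iff (G : SimpleGraph V) (hG : ∀ u v, C.adj u v ↔ G.Adj u v) (s : Finset V) :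
    C.Clq s ↔ G.IsClique (s : Set V) := by
  unfold Clq SimpleGraph.IsClique Set.Pairwise
  simp only [hG, mem_coe]

/-- the rows are exact for homology spheres -/
theorem rows_of_sphere (G : SimpleGraph V) (hG : ∀ u v, C.adj u v ↔ G.Adj u v) {N : ℕ}
    (hS : Pool.H8.CDW.Sphere G N) (A : Type) [AddCommGroup A]
    (two : ∀ a : A, a + a = 0) : C.Rows N A := by
  classical
  let lin : LinearOrder V := LinearOrder.lift' (Fintype.equivFin V) (Fintype.equivFin V).injective
  have hinst : ‹DecidableEq V› = (fun a b => lin.toDecidableEq a b) := Subsingleton.elim _ _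
  have h1 : @Pool.H8.CDW.Sphere V (fun a b => lin.toDecidableEq a b) G N := by
    rw [← hinst]; exact hS
  have h2 := ghs_of_sphere (V := V) h1
  have h3 : (cl G : Finset V → Prop) = C.Clq := by
    funext s
    exact propext (C.clq_iff G hG s).symm
  rw [h3] at h2
  have key : ∀ i j : DecidableEq V, @Rows V X Γ _ i _ _ C N A _ → @Rows V X Γ _ j _ _ C N A _ := by
    intro i j hi
    rw [Subsingleton.elim j i]
    exact hi
  exact key _ _ (C.rows_of_ghs h2 A two)

/-- **Duality** for homology spheres: `dlt` is exact at `m` iff `bd` is exact at `N - m`. -/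
theorem duality (G : SimpleGraph V) (hG : ∀ u v, C.adj u v ↔ G.Adj u v) {N : ℕ}
    (hS : Pool.H8.CDW.Sphere G N) {A : Type} [AddCommGroup A] [DistribMulAction Γ A]
    (two : ∀ a : A, a + a = 0) {m d : ℕ} (hm : m + d = N) :
    Ex (C.K A) C.dlt m ↔ C.Exb A d := by
  rw [exb_iff]
  exact dual two (C.rows_of_sphere G hG hS A two) hm

end

end CC

end Pool.Agent.H68.TL
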